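import Pool.Agent.SA27.Main

/-!
The covering group `K ≤ G × B(3,3)^(triples)`.
-/

set_option autoImplicit false

namespace Pool.Agent.SA27

open scoped commutatorElement IsMulCommutative

theorem tri_eq {α : Type*} [LinearOrder α] {a b c a' b' c' : α} (hab : a < b) (hbc : b < c)
    (hab' : a' < b') (hbc' : b' < c') (e1 : a = a' ∨ a = b' ∨ a = c')
    (e2 : b = a' ∨ b = b' ∨ b = c') (e3 : c = a' ∨ c = b' ∨ c = c') :
    a = a' ∧ b = b' ∧ c = c' := by
  have ha : a' ≤ a := by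
    rcases e1 with h | h | h
    · exact h.ge
    · exact h ▸ hab'.le
    · exact h ▸ (hab'.trans hbc').le
  have hc : c ≤ c' := by
    rcases e3 with h | h | h
    · exact h ▸ (hab'.trans hbc').le
    · exact h ▸ hbc'.le
    · exact h.le
  have hb : b = b' := by
    rcases e2 with h | h | h
    · exact absurd (h ▸ hab) (not_lt.2 ha)
    · exact h
    · exact absurd (h ▸ hbc) (not_lt.2 hc)
  refine ⟨?_, hb, ?_⟩
  · rcases e1 with h | h | h
    · exact h
    · exact absurd hab (by rw [h, hb]; exact lt_irrefl _)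
    · exact absurd hab (by rw [h, hb]; exact lt_asymm hbc')
  · rcases e3 with h | h | h
    · exact absurd hbc (by rw [h, hb]; exact lt_asymm hab')
    · exact absurd hbc (by rw [h, hb]; exact lt_irrefl _)
    · exact h

section con

variable {G : Type} [Group G] [LinearOrder G]

/-- increasing triples -/
abbrev Tri (G : Type) [LinearOrder G] : Type := {t : G × G × G // t.1 < t.2.1 ∧ t.2.1 < t.2.2}

/-- images of the generators -/
def bb (g : G) : Tri G → G7 := fun t =>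
  if g = t.1.1 then G7.X else if g = t.1.2.1 then G7.Y else if g = t.1.2.2 then G7.Z else 1

variable (φ : MulAut G)

/-- the automorphism of the product -/
def Phi : MulAut (G × (Tri G → G7)) := MulEquiv.prodCongr φ (MulEquiv.refl _)

theorem Phi_apply (x : G × (Tri G → G7)) : Phi φ x = (φ x.1, x.2) := rfl

theorem Phi_split (hs : Split3 φ) : Split3 (Phi φ) := by
  intro x
  rw [Phi_apply, Phi_apply]
  refine Prod.ext (hs x.1) ?_
  funext t
  exact G7.cube (x.2 t)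

/-- generators of `K` -/
def gens : Set (G × (Tri G → G7)) :=
  {p | ∃ g : G, p.2 = bb g ∧ (p.1 = g ∨ p.1 = φ g ∨ p.1 = φ (φ g))}

/-- the covering group -/
def KK : Subgroup (G × (Tri G → G7)) := Subgroup.closure (gens φ)

theorem KK_map (hs : Split3 φ) : (KK φ).map (Phi φ).toMonoidHom = KK φ := by
  unfold KK
  rw [MonoidHom.map_closure]
  congr 1
  ext u
  constructor
  · rintro ⟨p, ⟨g, h1, h2⟩, rfl⟩
    refine ⟨g, h1, ?_⟩
    rcases h2 with h | h | h
    · right; left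
      show φ p.1 = φ g
      rw [h]
    · right; right
      show φ p.1 = φ (φ g)
      rw [h]
    · left
      show φ p.1 = g
      rw [h, phi_cube hs]
  · rintro ⟨g, h1, h2⟩
    rcases h2 with h | h | h
    · refine ⟨(φ (φ g), bb g), ⟨g, rfl, Or.inr (Or.inr rfl)⟩, ?_⟩
      refine Prod.ext ?_ h1.symm
      show φ (φ (φ g)) = u.1
      rw [phi_cube hs, h]
    · exact ⟨(g, bb g), ⟨g, rfl, Or.inl rfl⟩, Prod.ext h.symm h1.symm⟩
    · exact ⟨(φ g, bb g), ⟨g, rfl, Or.inr (Or.inl rfl)⟩, Prod.ext h.symm h1.symm⟩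

variable {φ}

/-- the automorphism of `K` -/
def psi (hs : Split3 φ) : MulAut (KK φ) :=
  ((Phi φ).subgroupMap (KK φ)).trans (MulEquiv.subgroupCongr (KK_map φ hs))

theorem psi_coe (hs : Split3 φ) (k : KK φ) : ((psi hs k : KK φ) : G × (Tri G → G7)) = Phi φ k :=
  rfl

theorem psi_split (hs : Split3 φ) : Split3 (psi hs) := by
  intro k
  apply Subtype.ext
  exact Phi_split φ hs k

/-- generators -/
def kap (φ : MulAut G) (g : G) : KK φ :=
  ⟨(g, bb g), Subgroup.subset_closure ⟨g, rfl, Or.inl rfl⟩⟩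

/-- the triple commutators of the generators -/
def zet (φ : MulAut G) (t : Tri G) : KK φ :=
  ⁅kap φ t.1.1, ⁅kap φ t.1.2.1, kap φ t.1.2.2⁆⁆

/-- the subgroup generated by them -/
def TT (φ : MulAut G) : Subgroup (KK φ) := Subgroup.closure (Set.range (zet φ))

theorem TT_lt (a b c : G) (h1 : a < b) (h2 : b < c) :
    ⁅kap φ a, ⁅kap φ b, kap φ c⁆⁆ ∈ TT φ :=
  Subgroup.subset_closure ⟨⟨(a, b, c), h1, h2⟩, rfl⟩

variable (hs : Split3 φ)

include hs

theorem TT_sw12 (a b c : KK φ) (h : ⁅a, ⁅b, c⁆⁆ ∈ TT φ) : ⁅b, ⁅a, c⁆⁆ ∈ TT φ := by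
  rw [B_swap12 (engel_of_split (psi_split hs))]
  exact Subgroup.inv_mem _ h

theorem TT_sw23 (a b c : KK φ) (h : ⁅a, ⁅b, c⁆⁆ ∈ TT φ) : ⁅a, ⁅c, b⁆⁆ ∈ TT φ := by
  rw [B_swap23 (engel_of_split (psi_split hs))]
  exact Subgroup.inv_mem _ h

theorem TT_same (a c : KK φ) : ⁅a, ⁅a, c⁆⁆ ∈ TT φ := by
  rw [D_sq (engel_of_split (psi_split hs))]
  exact Subgroup.one_mem _

theorem TT_gen1 (a b c : G) (hab : a < b) : ⁅kap φ a, ⁅kap φ b, kap φ c⁆⁆ ∈ TT φ := by
  rcases lt_trichotomy b c with h | h | h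
  · exact TT_lt a b c hab h
  · subst h
    rw [commutatorElement_self, commutatorElement_one_right]
    exact Subgroup.one_mem _
  · rcases lt_trichotomy a c with h' | h' | h'
    · exact TT_sw23 hs _ _ _ (TT_lt a c b h' h)
    · subst h'
      exact TT_sw23 hs _ _ _ (TT_same hs _ _)
    · exact TT_sw23 hs _ _ _ (TT_sw12 hs _ _ _ (TT_lt c a b h' hab))

theorem TT_gen (a b c : G) : ⁅kap φ a, ⁅kap φ b, kap φ c⁆⁆ ∈ TT φ := by
  rcases lt_trichotomy a b with h | h | h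
  · exact TT_gen1 hs a b c h
  · subst h
    exact TT_same hs _ _
  · exact TT_sw12 hs _ _ _ (TT_gen1 hs b a c h)

theorem TT_ind (y z : KK φ) (h : ∀ a : G, ⁅kap φ a, ⁅y, z⁆⁆ ∈ TT φ) (x : KK φ) :
    ⁅x, ⁅y, z⁆⁆ ∈ TT φ := by
  have E := engel_of_split (psi_split hs)
  obtain ⟨x, hx⟩ := x
  refine Subgroup.closure_induction (p := fun x hx => ⁅(⟨x, hx⟩ : KK φ), ⁅y, z⁆⁆ ∈ TT φ)
    ?_ ?_ ?_ ?_ hx
  · rintro x ⟨g, h1, h2⟩
    rcases h2 with h2 | h2 | h2
    · have : (⟨x, Subgroup.subset_closure ⟨g, h1, Or.inl h2⟩⟩ : KK φ) = kap φ g :=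
        Subtype.ext (Prod.ext h2 h1)
      rw [this]
      exact h g
    · have : (⟨x, Subgroup.subset_closure ⟨g, h1, Or.inr (Or.inl h2)⟩⟩ : KK φ) =
          psi hs (kap φ g) := Subtype.ext (Prod.ext h2 h1)
      rw [this, B_inv1 (psi_split hs)]
      exact h g
    · have : (⟨x, Subgroup.subset_closure ⟨g, h1, Or.inr (Or.inr h2)⟩⟩ : KK φ) =
          psi hs (psi hs (kap φ g)) := Subtype.ext (Prod.ext h2 h1)
      rw [this, B_inv1 (psi_split hs), B_inv1 (psi_split hs)]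
      exact h g
  · have : (⟨1, Subgroup.one_mem _⟩ : KK φ) = 1 := rfl
    rw [this, commutatorElement_one_left]
    exact Subgroup.one_mem _
  · intro x x' hx hx' h1 h2
    have : (⟨x * x', Subgroup.mul_mem _ hx hx'⟩ : KK φ) = ⟨x, hx⟩ * ⟨x', hx'⟩ := rfl
    rw [this, B_mul1 E]
    exact Subgroup.mul_mem _ h1 h2
  · intro x hx h1
    have h2 : (⟨x⁻¹, Subgroup.inv_mem _ hx⟩ : KK φ) = (⟨x, hx⟩ : KK φ)⁻¹ := rfl
    have h3 := B_mul1 E (⟨x, hx⟩ : KK φ) (⟨x, hx⟩ : KK φ)⁻¹ y z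
    rw [mul_inv_cancel, commutatorElement_one_left] at h3
    rw [h2, eq_inv_of_mul_eq_one_right h3.symm]
    exact Subgroup.inv_mem _ h1

theorem TT_all (x y z : KK φ) : ⁅x, ⁅y, z⁆⁆ ∈ TT φ := by
  have E := engel_of_split (psi_split hs)
  refine TT_ind hs y z (fun a => ?_) x
  rw [B_cyc E (kap φ a) y z]
  refine TT_ind hs _ y (fun c => ?_) z
  rw [B_cyc E (kap φ c) (kap φ a) y]
  exact TT_ind hs _ _ (fun b => TT_gen hs b c a) y

theorem trip_le : trip (KK φ) ≤ TT φ := by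
  unfold trip
  rw [Subgroup.closure_le]
  rintro _ ⟨x, y, z, rfl⟩
  exact TT_all hs x y z

theorem zet_mem (t : Tri G) : zet φ t ∈ Subgroup.center (KK φ) := by
  rw [Subgroup.mem_center_iff]
  intro w
  exact (B_central (engel_of_split (psi_split hs)) _ _ _ w).eq

/-- in the centre -/
def zc (t : Tri G) : Subgroup.center (KK φ) := ⟨zet φ t, zet_mem hs t⟩

/-- products -/
noncomputable def FF (e : Tri G →₀ ℤ) : Subgroup.center (KK φ) := e.prod fun t n => zc hs t ^ n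

theorem FF_add (e e' : Tri G →₀ ℤ) : FF hs (e + e') = FF hs e * FF hs e' :=
  Finsupp.prod_add_index' (fun _ => zpow_zero _) (fun _ _ _ => zpow_add _ _ _)

theorem FF_zero : FF hs 0 = 1 := Finsupp.prod_zero_index

theorem FF_single (t : Tri G) (n : ℤ) : FF hs (Finsupp.single t n) = zc hs t ^ n :=
  Finsupp.prod_single_index (zpow_zero _)

theorem TT_exists (u : KK φ) (hu : u ∈ TT φ) : ∃ e : Tri G →₀ ℤ, u = (FF hs e : KK φ) := by
  refine Subgroup.closure_induction (p := fun u _ => ∃ e : Tri G →₀ ℤ, u = (FF hs e : KK φ))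
    ?_ ?_ ?_ ?_ hu
  · rintro _ ⟨t, rfl⟩
    refine ⟨Finsupp.single t 1, ?_⟩
    rw [FF_single, zpow_one]
    rfl
  · exact ⟨0, by rw [FF_zero]; rfl⟩
  · rintro _ _ _ _ ⟨e, rfl⟩ ⟨e', rfl⟩
    exact ⟨e + e', by rw [FF_add]; rfl⟩
  · rintro _ _ ⟨e, rfl⟩
    refine ⟨-e, ?_⟩
    have h := FF_add hs e (-e)
    rw [add_neg_cancel, FF_zero] at h
    rw [eq_inv_of_mul_eq_one_right h.symm]
    rfl

theorem zet_cube (t : Tri G) : zc hs t ^ 3 = 1 := by
  apply Subtype.ext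
  exact B_cube (engel_of_split (psi_split hs)) _ _ _

omit hs [Group G] in
theorem bb_one {g : G} {t : Tri G} (h1 : g ≠ t.1.1) (h2 : g ≠ t.1.2.1) (h3 : g ≠ t.1.2.2) :
    bb g t = 1 := by
  simp [bb, h1, h2, h3]

omit hs [Group G] in
theorem bb_tri (t : Tri G) : ⁅bb t.1.1 t, ⁅bb t.1.2.1 t, bb t.1.2.2 t⁆⁆ =
    (⟨0, 0, 0, 0, 0, 0, 1⟩ : G7) := by
  have h1 : bb t.1.1 t = G7.X := by simp [bb]
  have h2 : bb t.1.2.1 t = G7.Y := by simp [bb, t.2.1.ne']
  have h3 : bb t.1.2.2 t = G7.Z := by simp [bb, t.2.2.ne', (t.2.1.trans t.2.2).ne']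
  rw [h1, h2, h3, G7.tri]

omit hs [Group G] in
theorem bb_tri_ne {t t' : Tri G} (h : t ≠ t') : ⁅bb t.1.1 t', ⁅bb t.1.2.1 t', bb t.1.2.2 t'⁆⁆ =
    (1 : G7) := by
  by_cases h1 : t.1.1 = t'.1.1 ∨ t.1.1 = t'.1.2.1 ∨ t.1.1 = t'.1.2.2
  · by_cases h2 : t.1.2.1 = t'.1.1 ∨ t.1.2.1 = t'.1.2.1 ∨ t.1.2.1 = t'.1.2.2
    · by_cases h3 : t.1.2.2 = t'.1.1 ∨ t.1.2.2 = t'.1.2.1 ∨ t.1.2.2 = t'.1.2.2
      · exfalso
        obtain ⟨k1, k2, k3⟩ := tri_eq t.2.1 t.2.2 t'.2.1 t'.2.2 h1 h2 h3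
        exact h (Subtype.ext (Prod.ext k1 (Prod.ext k2 k3)))
      · push Not at h3
        rw [bb_one h3.1 h3.2.1 h3.2.2, commutatorElement_one_right, commutatorElement_one_right]
    · push Not at h2
      rw [bb_one h2.1 h2.2.1 h2.2.2, commutatorElement_one_left, commutatorElement_one_right]
  · push Not at h1
    rw [bb_one h1.1 h1.2.1 h1.2.2, commutatorElement_one_left]

omit hs in
theorem tri_zpow (n : ℤ) : (⟨0, 0, 0, 0, 0, 0, 1⟩ : G7) ^ n = ⟨0, 0, 0, 0, 0, 0, (n : ZMod 3)⟩ := by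
  cases n with
  | ofNat k => simpa using G7.tri_pow k
  | negSucc k =>
    rw [zpow_negSucc, G7.tri_pow, G7.inv_def]
    simp

theorem eval_FF (e : Tri G →₀ ℤ) (t' : Tri G) :
    ((FF hs e : KK φ) : G × (Tri G → G7)).2 t' = ⟨0, 0, 0, 0, 0, 0, (e t' : ZMod 3)⟩ := by
  induction e using Finsupp.induction_linear with
  | zero => rw [FF_zero]; simp [G7.one_def]
  | add e e' h1 h2 =>
    rw [FF_add]
    have : (((FF hs e * FF hs e' : Subgroup.center (KK φ)) : KK φ) : G × (Tri G → G7)).2 t' =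
      ((FF hs e : KK φ) : G × (Tri G → G7)).2 t' * ((FF hs e' : KK φ) : G × (Tri G → G7)).2 t' :=
      rfl
    rw [this, h1, h2, G7.mul_def]
    simp
  | single t n =>
    rw [FF_single]
    let ev : Subgroup.center (KK φ) →* G7 :=
      (Pi.evalMonoidHom (fun _ => G7) t').comp
        ((MonoidHom.snd G (Tri G → G7)).comp ((KK φ).subtype.comp (Subgroup.center (KK φ)).subtype))
    have h1 : (((zc hs t ^ n : Subgroup.center (KK φ)) : KK φ) : G × (Tri G → G7)).2 t' =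
        ev (zc hs t) ^ n := by
      rw [← map_zpow]
      rfl
    rw [h1]
    have h2 : ev (zc hs t) = ⁅bb t.1.1 t', ⁅bb t.1.2.1 t', bb t.1.2.2 t'⁆⁆ := rfl
    by_cases h : t = t'
    · subst h
      rw [h2, bb_tri, tri_zpow, Finsupp.single_eq_same]
    · rw [h2, bb_tri_ne h, one_zpow, Finsupp.single_eq_of_ne (Ne.symm h), Int.cast_zero]
      rfl

theorem inj_aux (u : KK φ) (hu : u ∈ trip (KK φ)) (h : (u : G × (Tri G → G7)).2 = 1) : u = 1 := by
  obtain ⟨e, rfl⟩ := TT_exists hs u (trip_le hs hu)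
  have h0 : ∀ t, ((e t : ℤ) : ZMod 3) = 0 := by
    intro t
    have h1 := eval_FF hs e t
    rw [h] at h1
    exact (congrArg G7.g h1).symm
  have h2 : FF hs e = 1 := by
    unfold FF
    refine Finset.prod_eq_one fun t _ => ?_
    obtain ⟨m, hm⟩ := (ZMod.intCast_zmod_eq_zero_iff_dvd (e t) 3).1 (h0 t)
    show zc hs t ^ (e t) = 1
    rw [hm, zpow_mul]
    have : zc hs t ^ ((3 : ℕ) : ℤ) = 1 := by rw [zpow_natCast, zet_cube]
    rw [this, one_zpow]
  rw [h2]
  rfl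

theorem join_split : JoinDecomp 3 2 G φ := by
  refine join_of φ (psi hs) (psi_split hs)
    ((MonoidHom.fst G (Tri G → G7)).comp (KK φ).subtype) ?_ (fun k => rfl)
    ((MonoidHom.snd G (Tri G → G7)).comp (KK φ).subtype) (fun k => rfl) (fun u hu h => inj_aux hs u hu h)
  intro g
  exact ⟨kap φ g, rfl⟩

end con

theorem join3 (G : Type) [Group G] (φ : MulAut G) (hs : Split3 φ) : JoinDecomp 3 2 G φ := by
  classical
  let _ : LinearOrder G := linearOrderOfSTO (WellOrderingRel (α := G))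
  exact join_split hs

end Pool.Agent.SA27
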