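import Mathlib

/-!
2-Engel groups: the triple commutator is alternating, trilinear, central and of exponent 3.
Groups with an automorphism `φ` with `x * φ x * φ (φ x) = 1` are 2-Engel.
-/

set_option autoImplicit false

namespace Pool.Agent.SA27

open scoped commutatorElement

variable {H : Type*} [Group H]

/-- every element commutes with its conjugates -/
def Engel2 (H : Type*) [Group H] : Prop := ∀ h k : H, Commute k (h * k * h⁻¹)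

section engel

/-- conjugates of `x` commute -/
theorem nc_comm (E : Engel2 H) (x : H) :
    ∀ a ∈ Subgroup.normalClosure ({x} : Set H), ∀ b ∈ Subgroup.normalClosure ({x} : Set H),
      a * b = b * a := by
  have hc : ∀ a ∈ Group.conjugatesOfSet ({x} : Set H),
      ∀ b ∈ Group.conjugatesOfSet ({x} : Set H), a * b = b * a := by
    intro a ha b hb
    rw [Group.mem_conjugatesOfSet_iff] at ha hb
    obtain ⟨a', ha', h1⟩ := ha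
    obtain ⟨b', hb', h2⟩ := hb
    rw [Set.mem_singleton_iff] at ha' hb'
    subst ha' hb'
    rw [isConj_iff] at h1 h2
    obtain ⟨g, rfl⟩ := h1
    obtain ⟨k, rfl⟩ := h2
    have := E (g⁻¹ * k) b'
    have h3 : g * b' * g⁻¹ * (k * b' * k⁻¹) = g * (b' * (g⁻¹ * k * b' * (g⁻¹ * k)⁻¹)) * g⁻¹ := by
      group
    have h4 : k * b' * k⁻¹ * (g * b' * g⁻¹) = g * ((g⁻¹ * k * b' * (g⁻¹ * k)⁻¹) * b') * g⁻¹ := by
      group
    rw [h3, h4, this.eq]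
  intro a ha b hb
  have h1 : Subgroup.closure (Group.conjugatesOfSet ({x} : Set H)) ≤
      Subgroup.centralizer (Group.conjugatesOfSet ({x} : Set H)) := by
    rw [Subgroup.closure_le]
    intro a ha
    rw [SetLike.mem_coe, Subgroup.mem_centralizer_iff]
    intro b hb
    exact hc b hb a ha
  have h2 : Subgroup.closure (Group.conjugatesOfSet ({x} : Set H)) ≤
      Subgroup.centralizer ((Subgroup.closure (Group.conjugatesOfSet ({x} : Set H)) :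
        Subgroup H) : Set H) := by
    rw [Subgroup.closure_le]
    intro a ha
    rw [SetLike.mem_coe, Subgroup.mem_centralizer_iff]
    intro b hb
    have := h1 hb
    rw [Subgroup.mem_centralizer_iff] at this
    exact (this a ha).symm
  have h3 := h2 hb
  rw [Subgroup.mem_centralizer_iff] at h3
  exact h3 a ha

theorem self_mem (x : H) : x ∈ Subgroup.normalClosure ({x} : Set H) :=
  Subgroup.subset_normalClosure (Set.mem_singleton x)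

theorem comm_mem {x n : H} (y : H) (hn : n ∈ Subgroup.normalClosure ({x} : Set H)) :
    ⁅y, n⁆ ∈ Subgroup.normalClosure ({x} : Set H) := by
  rw [commutatorElement_def]
  exact Subgroup.mul_mem _ (Subgroup.normalClosure_normal.conj_mem n hn y) (Subgroup.inv_mem _ hn)

variable (E : Engel2 H)

include E

theorem D_mul {x n m : H} (y : H) (hn : n ∈ Subgroup.normalClosure ({x} : Set H))
    (hm : m ∈ Subgroup.normalClosure ({x} : Set H)) : ⁅y, n * m⁆ = ⁅y, n⁆ * ⁅y, m⁆ := by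
  have h1 := nc_comm E x n⁻¹ (Subgroup.inv_mem _ hn) ⁅y, m⁆ (comm_mem y hm)
  have h2 : ⁅y, n * m⁆ = y * n * y⁻¹ * (⁅y, m⁆ * n⁻¹) := by
    rw [commutatorElement_def, commutatorElement_def]; group
  rw [h2, ← h1, commutatorElement_def y n]; group

omit E in
theorem D_comp (y z n : H) : ⁅y * z, n⁆ = ⁅y, ⁅z, n⁆⁆ * ⁅z, n⁆ * ⁅y, n⁆ := by
  simp only [commutatorElement_def]; group

theorem D_sq (y n : H) : ⁅y, ⁅y, n⁆⁆ = 1 := by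
  rw [commutatorElement_eq_one_iff_commute]
  have h1 := (E n y).inv_right
  have h2 : ⁅y, n⁆ = y * (n * y * n⁻¹)⁻¹ := by rw [commutatorElement_def]; group
  rw [h2]
  exact (Commute.refl y).mul_right h1

omit E in
theorem D_one (y : H) : ⁅y, (1 : H)⁆ = 1 := commutatorElement_one_right y

theorem D_inv (y u : H) : ⁅y, u⁻¹⁆ = ⁅y, u⁆⁻¹ := by
  have := D_mul E y (self_mem u) (Subgroup.inv_mem _ (self_mem u))
  rw [mul_inv_cancel, D_one] at this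
  exact eq_inv_of_mul_eq_one_right this.symm

theorem D_pow (y u : H) (k : ℕ) : ⁅y, u ^ k⁆ = ⁅y, u⁆ ^ k := by
  induction k with
  | zero => simp
  | succ k ih =>
    rw [pow_succ, pow_succ, D_mul E y (Subgroup.pow_mem _ (self_mem u) k) (self_mem u), ih]

/-- the key relation -/
theorem D_rel {x n : H} (y z : H) (hn : n ∈ Subgroup.normalClosure ({x} : Set H)) :
    ⁅y, ⁅z, ⁅y, ⁅z, n⁆⁆⁆⁆ * ⁅z, ⁅y, ⁅z, n⁆⁆⁆ * ⁅y, ⁅z, n⁆⁆ * (⁅y, ⁅z, ⁅y, n⁆⁆⁆ * ⁅z, ⁅y, n⁆⁆) = 1 := by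
  have h := D_sq E (y * z) n
  have ha : ⁅z, n⁆ ∈ Subgroup.normalClosure ({x} : Set H) := comm_mem z hn
  have hb : ⁅y, n⁆ ∈ Subgroup.normalClosure ({x} : Set H) := comm_mem y hn
  have hc : ⁅y, ⁅z, n⁆⁆ ∈ Subgroup.normalClosure ({x} : Set H) := comm_mem y ha
  rw [D_comp y z n, D_mul E _ (Subgroup.mul_mem _ hc ha) hb, D_mul E _ hc ha,
    D_comp y z ⁅y, ⁅z, n⁆⁆, D_comp y z ⁅z, n⁆, D_comp y z ⁅y, n⁆, D_sq E y ⁅z, n⁆,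
    D_sq E z n, D_sq E y n, D_one, mul_one, mul_one, one_mul, mul_one] at h
  rw [← h]

theorem D_yzy {x m : H} (y z : H) (hm : m ∈ Subgroup.normalClosure ({x} : Set H)) :
    ⁅y, ⁅z, ⁅y, m⁆⁆⁆ = 1 := by
  -- first for `m = z n z⁻¹`
  have key : ∀ n ∈ Subgroup.normalClosure ({x} : Set H),
      ⁅y, ⁅z, ⁅y, ⁅z, n⁆⁆⁆⁆ * ⁅y, ⁅z, ⁅y, n⁆⁆⁆ = 1 := by
    intro n hn
    have h := congrArg (fun t => ⁅y, t⁆) (D_rel E y z hn)
    have ha : ⁅z, n⁆ ∈ Subgroup.normalClosure ({x} : Set H) := comm_mem z hn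
    have hb : ⁅y, n⁆ ∈ Subgroup.normalClosure ({x} : Set H) := comm_mem y hn
    have hc : ⁅y, ⁅z, n⁆⁆ ∈ Subgroup.normalClosure ({x} : Set H) := comm_mem y ha
    have hd : ⁅z, ⁅y, ⁅z, n⁆⁆⁆ ∈ Subgroup.normalClosure ({x} : Set H) := comm_mem z hc
    have he : ⁅y, ⁅z, ⁅y, ⁅z, n⁆⁆⁆⁆ ∈ Subgroup.normalClosure ({x} : Set H) := comm_mem y hd
    have hf : ⁅z, ⁅y, n⁆⁆ ∈ Subgroup.normalClosure ({x} : Set H) := comm_mem z hb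
    have hg : ⁅y, ⁅z, ⁅y, n⁆⁆⁆ ∈ Subgroup.normalClosure ({x} : Set H) := comm_mem y hf
    rw [D_mul E y (Subgroup.mul_mem _ (Subgroup.mul_mem _ he hd) hc) (Subgroup.mul_mem _ hg hf),
      D_mul E y (Subgroup.mul_mem _ he hd) hc, D_mul E y he hd, D_mul E y hg hf,
      D_sq E y ⁅z, ⁅y, ⁅z, n⁆⁆⁆, D_sq E y ⁅z, n⁆, D_sq E y ⁅z, ⁅y, n⁆⁆, D_one, one_mul, mul_one,
      one_mul] at h
    exact h
  have hn : z⁻¹ * m * z ∈ Subgroup.normalClosure ({x} : Set H) := by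
    have := Subgroup.normalClosure_normal.conj_mem m hm z⁻¹
    rwa [inv_inv] at this
  have h1 := key _ hn
  have ha : ⁅z, z⁻¹ * m * z⁆ ∈ Subgroup.normalClosure ({x} : Set H) := comm_mem z hn
  rw [← D_mul E y (comm_mem z (comm_mem y ha)) (comm_mem z (comm_mem y hn)),
    ← D_mul E z (comm_mem y ha) (comm_mem y hn), ← D_mul E y ha hn] at h1
  have h2 : ⁅z, z⁻¹ * m * z⁆ * (z⁻¹ * m * z) = m := by
    rw [commutatorElement_def]; group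
  rwa [h2] at h1

/-- anticommutation -/
theorem anti12 (y z n : H) : ⁅y, ⁅z, n⁆⁆ * ⁅z, ⁅y, n⁆⁆ = 1 := by
  have h := D_rel E y z (self_mem n)
  rw [D_yzy E y z (comm_mem z (self_mem n)), D_yzy E z y (self_mem n), D_yzy E y z (self_mem n),
    one_mul, one_mul, one_mul] at h
  exact h

theorem B_swap12 (y z n : H) : ⁅y, ⁅z, n⁆⁆ = ⁅z, ⁅y, n⁆⁆⁻¹ :=
  eq_inv_of_mul_eq_one_left (anti12 E y z n)

theorem B_swap23 (y z x : H) : ⁅y, ⁅z, x⁆⁆ = ⁅y, ⁅x, z⁆⁆⁻¹ := by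
  rw [← D_inv E, commutatorElement_inv]

theorem B_cyc (x y z : H) : ⁅x, ⁅y, z⁆⁆ = ⁅z, ⁅x, y⁆⁆ := by
  rw [B_swap23 E x y z, B_swap12 E x z y, inv_inv]

/-- `⁅⁅x, y⁆, n⁆ = ⁅x, ⁅y, n⁆⁆ ^ 2` -/
theorem D_comm (x y m : H) : ⁅⁅x, y⁆, m⁆ = ⁅x, ⁅y, m⁆⁆ ^ 2 := by
  set n := (y * x)⁻¹ * m * (y * x) with hn
  have hnm : n ∈ Subgroup.normalClosure ({m} : Set H) := by
    have := Subgroup.normalClosure_normal.conj_mem m (self_mem m) (y * x)⁻¹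
    rwa [inv_inv] at this
  have hm : (y * x) * n * (y * x)⁻¹ = m := by rw [hn]; group
  have hmul : ⁅y * x, n⁆ * n = m := by rw [commutatorElement_def, inv_mul_cancel_right, hm]
  have hyx := D_comp y x n
  have hxy := D_comp x y n
  have h1 : x * y = ⁅x, y⁆ * (y * x) := by rw [commutatorElement_def]; group
  have hC : ⁅x * y, n⁆ = ⁅⁅x, y⁆, ⁅y * x, n⁆⁆ * ⁅y * x, n⁆ * ⁅⁅x, y⁆, n⁆ := by
    rw [h1, D_comp]
  -- memberships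
  have a1 : ⁅y, n⁆ ∈ Subgroup.normalClosure ({m} : Set H) := comm_mem y hnm
  have a2 : ⁅x, n⁆ ∈ Subgroup.normalClosure ({m} : Set H) := comm_mem x hnm
  have a3 : ⁅x, ⁅y, n⁆⁆ ∈ Subgroup.normalClosure ({m} : Set H) := comm_mem x a1
  have a4 : ⁅y, ⁅x, n⁆⁆ ∈ Subgroup.normalClosure ({m} : Set H) := comm_mem y a2
  have a5 : ⁅y * x, n⁆ ∈ Subgroup.normalClosure ({m} : Set H) := comm_mem _ hnm
  have a6 : ⁅⁅x, y⁆, ⁅y * x, n⁆⁆ ∈ Subgroup.normalClosure ({m} : Set H) := comm_mem _ a5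
  have a7 : ⁅⁅x, y⁆, n⁆ ∈ Subgroup.normalClosure ({m} : Set H) := comm_mem _ hnm
  have c := nc_comm E m
  -- `⁅⁅x,y⁆,m⁆ * ⁅y*x,n⁆ = ⁅x*y,n⁆`
  have h2 : ⁅⁅x, y⁆, m⁆ * ⁅y * x, n⁆ = ⁅x * y, n⁆ := by
    rw [hC, ← hmul, D_mul E _ a5 hnm, mul_assoc, mul_assoc, c _ a7 _ a5]
  have h3 : ⁅⁅x, y⁆, m⁆ * ⁅y, ⁅x, n⁆⁆ = ⁅x, ⁅y, n⁆⁆ := by
    have h4 : ⁅⁅x, y⁆, m⁆ * ⁅y, ⁅x, n⁆⁆ * (⁅x, n⁆ * ⁅y, n⁆) =
        ⁅x, ⁅y, n⁆⁆ * (⁅x, n⁆ * ⁅y, n⁆) := by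
      have h5 : ⁅⁅x, y⁆, m⁆ * ⁅y, ⁅x, n⁆⁆ * (⁅x, n⁆ * ⁅y, n⁆) = ⁅⁅x, y⁆, m⁆ * ⁅y * x, n⁆ := by
        rw [hyx]; group
      rw [h5, h2, hxy, c _ a2 _ a1]; group
    exact mul_right_cancel h4
  have h6 : ⁅x, ⁅y, m⁆⁆ = ⁅x, ⁅y, n⁆⁆ := by
    rw [← hmul, D_mul E y a5 hnm, D_mul E x (comm_mem y a5) a1, hyx,
      D_mul E y (Subgroup.mul_mem _ a4 a2) a1, D_mul E y a4 a2, D_sq E y ⁅x, n⁆, D_sq E y n,
      one_mul, mul_one, D_yzy E x y hnm, one_mul]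
  have h7 := anti12 E x y n
  rw [← h6] at h3 h7
  have h8 : ⁅y, ⁅x, n⁆⁆ = ⁅x, ⁅y, m⁆⁆⁻¹ := eq_inv_of_mul_eq_one_right h7
  rw [h8] at h3
  rw [sq]
  exact mul_inv_eq_iff_eq_mul.1 h3

theorem B_cube (x y z : H) : ⁅x, ⁅y, z⁆⁆ ^ 3 = 1 := by
  have h1 := D_comm E x y z
  have h2 : ⁅⁅x, y⁆, z⁆ = ⁅x, ⁅y, z⁆⁆⁻¹ := by
    rw [B_cyc E x y z, commutatorElement_inv]
  rw [h2] at h1
  have : ⁅x, ⁅y, z⁆⁆ ^ 3 = ⁅x, ⁅y, z⁆⁆ * ⁅x, ⁅y, z⁆⁆ ^ 2 := by rw [← pow_succ']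
  rw [this, ← h1, mul_inv_cancel]

/-- 2-Engel groups have class at most three -/
theorem quad (w x y z : H) : ⁅w, ⁅x, ⁅y, z⁆⁆⁆ = 1 := by
  have s12 : ∀ w x y z : H, ⁅w, ⁅x, ⁅y, z⁆⁆⁆ = ⁅x, ⁅w, ⁅y, z⁆⁆⁆⁻¹ := fun w x y z =>
    B_swap12 E w x ⁅y, z⁆
  have s23 : ∀ w x y z : H, ⁅w, ⁅x, ⁅y, z⁆⁆⁆ = ⁅w, ⁅y, ⁅x, z⁆⁆⁆⁻¹ := fun w x y z => by
    rw [B_swap12 E x y z, D_inv E]
  have s34 : ∀ w x y z : H, ⁅w, ⁅x, ⁅y, z⁆⁆⁆ = ⁅w, ⁅x, ⁅z, y⁆⁆⁆⁻¹ := fun w x y z => by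
    rw [B_swap23 E x y z, D_inv E]
  have e : ⁅y, ⁅z, ⁅w, x⁆⁆⁆ = ⁅w, ⁅x, ⁅y, z⁆⁆⁆ := by
    rw [s23 y z w x, s12 y w z x, s34 w y z x, s23 w y x z]; simp
  have h1 := D_comm E w x ⁅y, z⁆
  have h2 := D_comm E y z ⁅w, x⁆
  rw [← commutatorElement_inv, h1, e] at h2
  set q := ⁅w, ⁅x, ⁅y, z⁆⁆⁆ with hq
  have h3 : q ^ 3 = 1 := by
    rw [hq, ← D_pow E, B_cube E, D_one]
  have h4 : q ^ 4 = 1 := by
    have : q ^ 4 = q ^ 2 * q ^ 2 := by rw [← pow_add]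
    rw [this]
    nth_rewrite 1 [← h2]
    simp
  have : q ^ 4 = q ^ 3 * q := pow_succ q 3
  rw [h3, h4, one_mul] at this
  exact this.symm

theorem B_central (x y z w : H) : Commute w ⁅x, ⁅y, z⁆⁆ :=
  commutatorElement_eq_one_iff_commute.1 (quad E w x y z)

theorem B_mul1 (x x' y z : H) : ⁅x * x', ⁅y, z⁆⁆ = ⁅x, ⁅y, z⁆⁆ * ⁅x', ⁅y, z⁆⁆ := by
  rw [D_comp, quad E, one_mul]
  exact (B_central E x' y z _).eq.symm ▸ rfl

theorem B_mul2 (x y y' z : H) : ⁅x, ⁅y * y', z⁆⁆ = ⁅x, ⁅y, z⁆⁆ * ⁅x, ⁅y', z⁆⁆ := by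
  rw [B_cyc E x (y * y') z, B_cyc E z x (y * y'), B_mul1 E, B_cyc E x y z, B_cyc E z x y,
    B_cyc E x y' z, B_cyc E z x y']

theorem B_mul3 (x y z z' : H) : ⁅x, ⁅y, z * z'⁆⁆ = ⁅x, ⁅y, z⁆⁆ * ⁅x, ⁅y, z'⁆⁆ := by
  rw [B_cyc E x y (z * z'), B_mul1 E, B_cyc E x y z, B_cyc E x y z']

end engel

end Pool.Agent.SA27
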