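import Pool.Agent.SA27.Cover

/-!
Class 1 is not enough: the Heisenberg group over `ZMod 7`.
-/

set_option autoImplicit false

namespace Pool.Agent.SA27

open scoped commutatorElement

/-- the Heisenberg group over `ZMod 7` -/
@[ext] structure Heis where
  (a b c : ZMod 7)

namespace Heis

instance : Mul Heis := ⟨fun p q => ⟨p.a + q.a, p.b + q.b, p.c + q.c + p.a * q.b⟩⟩

instance : One Heis := ⟨⟨0, 0, 0⟩⟩

instance : Inv Heis := ⟨fun p => ⟨-p.a, -p.b, -p.c + p.a * p.b⟩⟩

theorem mul_def (p q : Heis) : p * q = ⟨p.a + q.a, p.b + q.b, p.c + q.c + p.a * q.b⟩ := rfl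

theorem one_def : (1 : Heis) = ⟨0, 0, 0⟩ := rfl

theorem inv_def (p : Heis) : p⁻¹ = ⟨-p.a, -p.b, -p.c + p.a * p.b⟩ := rfl

instance : Group Heis := Group.ofLeftAxioms
  (fun p q r => by ext <;> simp only [mul_def] <;> ring)
  (fun p => by ext <;> simp only [mul_def, one_def] <;> ring)
  (fun p => by ext <;> simp only [mul_def, one_def, inv_def] <;> ring)

theorem seven : (7 : ZMod 7) = 0 := by decide

/-- `(a, b, c) ↦ (2a, 2b, 4c)` -/
def aut : MulAut Heis where
  toFun p := ⟨2 * p.a, 2 * p.b, 4 * p.c⟩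
  invFun p := ⟨4 * p.a, 4 * p.b, 2 * p.c⟩
  left_inv p := by
    have h := seven
    ext <;> simp only
    · linear_combination p.a * h
    · linear_combination p.b * h
    · linear_combination p.c * h
  right_inv p := by
    have h := seven
    ext <;> simp only
    · linear_combination p.a * h
    · linear_combination p.b * h
    · linear_combination p.c * h
  map_mul' p q := by
    ext <;> simp only [mul_def] <;> ring

theorem aut_apply (p : Heis) : aut p = ⟨2 * p.a, 2 * p.b, 4 * p.c⟩ := rfl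

theorem aut_split : Split3 aut := by
  intro p
  have h := seven
  simp only [aut_apply, mul_def, one_def]
  ext <;> simp only
  · linear_combination p.a * h
  · linear_combination p.b * h
  · linear_combination (3 * p.c + 2 * p.a * p.b) * h

theorem comm_ne : (⁅(⟨1, 0, 0⟩ : Heis), (⟨0, 1, 0⟩ : Heis)⁆) ^ 3 ≠ 1 := by
  intro h
  have h1 := congrArg Heis.c h
  rw [pow_succ, sq] at h1
  simp only [commutatorElement_def, mul_def, inv_def, one_def] at h1
  revert h1
  decide

end Heis

/-- a group of the join of class 1 and exponent 3 has commutators of order dividing 3 -/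
theorem comm_cube {G : Type} [Group G] {φ : MulAut G} (h : JoinDecomp 3 1 G φ) (x y : G) :
    ⁅x, y⁆ ^ 3 = 1 := by
  obtain ⟨A, iA, α, ι, B, iB, β, -, hA, hB, H, -, f, hf, -⟩ := h
  obtain ⟨u, rfl⟩ := hf x
  obtain ⟨v, rfl⟩ := hf y
  have key : ⁅u, v⁆ ^ 3 = 1 := by
    apply Subtype.ext
    refine Prod.ext ?_ ?_
    · have h1 : ((⁅u, v⁆ ^ 3 : H) : A × ((i : ι) → B i)).1 = ⁅u.1.1, v.1.1⁆ ^ 3 := rfl
      have h2 : u.1.1 ∈ Subgroup.center A := by
        rw [← Subgroup.upperCentralSeries_one, hA]; trivial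
      rw [h1]
      have h3 : ⁅u.1.1, v.1.1⁆ = 1 := by
        rw [commutatorElement_eq_one_iff_mul_comm]
        exact (Subgroup.mem_center_iff.1 h2 v.1.1).symm
      rw [h3, one_pow]
      rfl
    · funext i
      exact (hB i).2.1 _
  have h4 : ⁅f u, f v⁆ ^ 3 = f (⁅u, v⁆ ^ 3) := by
    rw [map_pow, map_commutatorElement]
  rw [h4, key, map_one]

end Pool.Agent.SA27
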