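import Pool.Agent.SA27.Model

/-!
The join decomposition for `p = 3`, with `c(3) = 2`.
-/

set_option autoImplicit false

namespace Pool.Agent.SA27

open scoped commutatorElement

/-- `φ` is a splitting automorphism of order (dividing) `p` -/
def Splitting (p : ℕ) {G : Type} [Group G] (φ : MulAut G) : Prop :=
  φ ^ p = 1 ∧ ∀ x : G, ((List.range p).map (fun k => (φ ^ k) x)).prod = 1

/-- locally nilpotent -/
def LocNilp (G : Type) [Group G] : Prop :=
  ∀ s : Finset G, Group.IsNilpotent (Subgroup.closure (s : Set G))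

/-- locally nilpotent of exponent `p` with a splitting automorphism of order `p` -/
def ExpFactor (p : ℕ) (B : Type) [Group B] (β : MulAut B) : Prop :=
  Splitting p β ∧ (∀ x : B, x ^ p = 1) ∧ LocNilp B

/-- `(G, φ)` is an image, as a group with operator, of an invariant subgroup of
`(A × ∏ B i, (α, β i))` -/
def Covers {A : Type} [Group A] (α : MulAut A) {ι : Type} (B : ι → Type) [∀ i, Group (B i)]
    (β : ∀ i, MulAut (B i)) {G : Type} [Group G] (φ : MulAut G) : Prop :=
  ∃ H : Subgroup (A × ((i : ι) → B i)),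
    (∀ x ∈ H, ((α x.1, fun i => β i (x.2 i)) : A × ((i : ι) → B i)) ∈ H) ∧
    ∃ f : H →* G, Function.Surjective f ∧
      ∀ h h' : H, (h'.1.1 = α h.1.1 ∧ h'.1.2 = fun i => β i (h.1.2 i)) → f h' = φ (f h)

/-- `(G, φ)` is an operator image of an invariant subgroup of (a group of class at most `c` with a
splitting automorphism of order `p`) × (a product of locally nilpotent groups of exponent `p` with
splitting automorphisms of order `p`) -/
def JoinDecomp (p c : ℕ) (G : Type) [Group G] (φ : MulAut G) : Prop :=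
  ∃ (A : Type) (_ : Group A) (α : MulAut A) (ι : Type) (B : ι → Type)
    (_ : ∀ i, Group (B i)) (β : ∀ i, MulAut (B i)),
    Splitting p α ∧ Subgroup.upperCentralSeries A c = ⊤ ∧ (∀ i, ExpFactor p (B i) (β i)) ∧
    Covers α B β φ

theorem range3 {M : Type*} [Monoid M] (g : ℕ → M) :
    ((List.range 3).map g).prod = g 0 * g 1 * g 2 := by
  simp [List.range_succ, mul_assoc]

theorem split_iff {K : Type*} [Group K] (φ : MulAut K) :
    (∀ x : K, ((List.range 3).map (fun k => (φ ^ k) x)).prod = 1) ↔ Split3 φ := by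
  unfold Split3
  simp only [range3]
  refine forall_congr' fun x => ?_
  rw [pow_zero, pow_one, sq]
  rfl

theorem pow3_of_split {K : Type*} [Group K] {φ : MulAut K} (h : Split3 φ) : φ ^ 3 = 1 := by
  ext x
  have : (φ ^ 3) x = φ (φ (φ x)) := by rw [pow_succ, sq]; rfl
  rw [this, phi_cube h]
  rfl

/-- the subgroup of the triple commutators -/
def trip (K : Type*) [Group K] : Subgroup K :=
  Subgroup.closure {u | ∃ x y z : K, u = ⁅x, ⁅y, z⁆⁆}

theorem trip_central {K : Type*} [Group K] (E : Engel2 K) {u : K} (hu : u ∈ trip K) (w : K) :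
    Commute w u := by
  have : trip K ≤ Subgroup.centralizer {w} := by
    unfold trip
    rw [Subgroup.closure_le]
    rintro _ ⟨x, y, z, rfl⟩
    rw [SetLike.mem_coe, Subgroup.mem_centralizer_iff]
    intro v hv
    rw [Set.mem_singleton_iff] at hv
    subst hv
    exact (B_central E x y z v).eq
  have h := this hu
  rw [Subgroup.mem_centralizer_iff] at h
  exact h w rfl

theorem trip_normal {K : Type*} [Group K] (E : Engel2 K) : (trip K).Normal := by
  constructor
  intro u hu g
  rw [(trip_central E hu g).eq, mul_inv_cancel_right]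
  exact hu

theorem trip_map {K : Type*} [Group K] (ψ : MulAut K) : (trip K).map ψ.toMonoidHom = trip K := by
  unfold trip
  rw [MonoidHom.map_closure]
  congr 1
  ext u
  constructor
  · rintro ⟨_, ⟨x, y, z, rfl⟩, rfl⟩
    exact ⟨ψ x, ψ y, ψ z, by simp [map_commutatorElement]⟩
  · rintro ⟨x, y, z, rfl⟩
    refine ⟨⁅ψ.symm x, ⁅ψ.symm y, ψ.symm z⁆⁆, ⟨_, _, _, rfl⟩, ?_⟩
    simp [map_commutatorElement]

theorem class2 {A : Type*} [Group A] (h : ∀ x y z : A, ⁅z, ⁅x, y⁆⁆ = 1) :
    Subgroup.upperCentralSeries A 2 = ⊤ := by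
  rw [eq_top_iff]
  intro x _
  rw [Subgroup.mem_upperCentralSeries_succ_iff]
  intro y
  rw [Subgroup.mem_upperCentralSeries_succ_iff]
  intro z
  rw [Subgroup.upperCentralSeries_zero, Subgroup.mem_bot, ← commutatorElement_inv, h, inv_one]

theorem nilp_of_split {K : Type*} [Group K] {φ : MulAut K} (h : Split3 φ) :
    Group.IsNilpotent K := ⟨⟨3, class3 (engel_of_split h)⟩⟩

/-- the abstract form -/
theorem join_of {G : Type} [Group G] (φ : MulAut G) {K : Type} [Group K] (ψ : MulAut K)
    (hψ : Split3 ψ) (p : K →* G) (hp : Function.Surjective p) (hpe : ∀ k, p (ψ k) = φ (p k))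
    {ι : Type} (q : K →* (ι → G7)) (hq : ∀ k, q (ψ k) = q k)
    (hinj : ∀ u ∈ trip K, q u = 1 → u = 1) : JoinDecomp 3 2 G φ := by
  have E := engel_of_split hψ
  have := trip_normal E
  let α : MulAut (K ⧸ trip K) := QuotientGroup.congr (trip K) (trip K) ψ (trip_map ψ)
  have hα : ∀ k : K, α (QuotientGroup.mk k) = QuotientGroup.mk (ψ k) := fun k => rfl
  have hs : Split3 α := by
    intro x
    induction x using QuotientGroup.induction_on with
    | H k =>
      rw [hα, hα, ← QuotientGroup.mk_mul, ← QuotientGroup.mk_mul, hψ k]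
      rfl
  let j : K →* (K ⧸ trip K) × (ι → G7) := (QuotientGroup.mk' (trip K)).prod q
  have hj : Function.Injective j := by
    rw [injective_iff_map_eq_one]
    intro k hk
    have h1 : (QuotientGroup.mk' (trip K)) k = 1 := congrArg Prod.fst hk
    have h2 : q k = 1 := congrArg Prod.snd hk
    rw [QuotientGroup.mk'_apply, QuotientGroup.eq_one_iff] at h1
    exact hinj k h1 h2
  refine ⟨K ⧸ trip K, inferInstance, α, ι, fun _ => G7, fun _ => inferInstance, fun _ => 1,
    ⟨pow3_of_split hs, (split_iff α).2 hs⟩, class2 ?_, ?_, j.range, ?_, ?_⟩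
  · intro x y z
    induction x using QuotientGroup.induction_on with
    | H x =>
      induction y using QuotientGroup.induction_on with
      | H y =>
        induction z using QuotientGroup.induction_on with
        | H z =>
          have : (⁅(z : K ⧸ trip K), ⁅(x : K ⧸ trip K), (y : K ⧸ trip K)⁆⁆) =
              ((⁅z, ⁅x, y⁆⁆ : K) : K ⧸ trip K) := rfl
          rw [this, QuotientGroup.eq_one_iff]
          exact Subgroup.subset_closure ⟨z, x, y, rfl⟩
  · intro i
    refine ⟨⟨one_pow 3, (split_iff _).2 G7.split⟩, fun x => ?_, fun s => ?_⟩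
    · rw [pow_succ, sq]; exact G7.cube x
    · have : Group.IsNilpotent G7 := nilp_of_split G7.split
      infer_instance
  · rintro _ ⟨k, rfl⟩
    refine ⟨ψ k, Prod.ext rfl ?_⟩
    exact hq k
  · refine ⟨p.comp (MonoidHom.ofInjective hj).symm.toMonoidHom, ?_, ?_⟩
    · intro g
      obtain ⟨k, rfl⟩ := hp g
      refine ⟨MonoidHom.ofInjective hj k, ?_⟩
      simp
    · intro h h' hh
      obtain ⟨k, rfl⟩ := (MonoidHom.ofInjective hj).surjective h
      have : h' = MonoidHom.ofInjective hj (ψ k) := by
        apply Subtype.ext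
        rw [MonoidHom.ofInjective_apply]
        refine Prod.ext ?_ ?_
        · rw [hh.1]; rfl
        · rw [hh.2]
          have : (j (ψ k)).2 = q k := by simp [j, hq]
          rw [this]
          rfl
      rw [this]
      simp [hpe]

end Pool.Agent.SA27
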