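import Pool.Agent.SA27.Split

/-!
The group `B(3,3)` of order `3^7` and exponent 3, as the affine group over the exterior algebra of
a plane over `ZMod 3`.
-/

set_option autoImplicit false

namespace Pool.Agent.SA27

open scoped commutatorElement

/-- `(1 + a x + b y + c xy, d + e x + f y + g xy)` -/
@[ext] structure G7 where
  (a b c d e f g : ZMod 3)

namespace G7

instance : Mul G7 := ⟨fun p q => ⟨p.a + q.a, p.b + q.b, p.c + q.c + p.a * q.b - p.b * q.a,
  p.d + q.d, p.e + q.e + p.a * q.d, p.f + q.f + p.b * q.d,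
  p.g + q.g + p.a * q.f - p.b * q.e + p.c * q.d⟩⟩

instance : One G7 := ⟨⟨0, 0, 0, 0, 0, 0, 0⟩⟩

instance : Inv G7 := ⟨fun p => ⟨-p.a, -p.b, -p.c, -p.d, -p.e + p.a * p.d, -p.f + p.b * p.d,
  -p.g + p.a * p.f - p.b * p.e + p.c * p.d⟩⟩

theorem mul_def (p q : G7) : p * q = ⟨p.a + q.a, p.b + q.b, p.c + q.c + p.a * q.b - p.b * q.a,
  p.d + q.d, p.e + q.e + p.a * q.d, p.f + q.f + p.b * q.d,
  p.g + q.g + p.a * q.f - p.b * q.e + p.c * q.d⟩ := rfl

theorem one_def : (1 : G7) = ⟨0, 0, 0, 0, 0, 0, 0⟩ := rfl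

theorem inv_def (p : G7) : p⁻¹ = ⟨-p.a, -p.b, -p.c, -p.d, -p.e + p.a * p.d, -p.f + p.b * p.d,
  -p.g + p.a * p.f - p.b * p.e + p.c * p.d⟩ := rfl

instance : Group G7 := Group.ofLeftAxioms
  (fun p q r => by ext <;> simp only [mul_def] <;> ring)
  (fun p => by ext <;> simp only [mul_def, one_def] <;> ring)
  (fun p => by ext <;> simp only [mul_def, one_def, inv_def] <;> ring)

theorem three : (3 : ZMod 3) = 0 := by decide

theorem cube (p : G7) : p * p * p = 1 := by
  have h := three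
  ext <;> simp only [mul_def, one_def]
  · linear_combination p.a * h
  · linear_combination p.b * h
  · linear_combination p.c * h
  · linear_combination p.d * h
  · linear_combination (p.e + p.a * p.d) * h
  · linear_combination (p.f + p.b * p.d) * h
  · linear_combination (p.g + p.a * p.f - p.b * p.e + p.c * p.d) * h

/-- generators -/
def X : G7 := ⟨1, 0, 0, 0, 0, 0, 0⟩
/-- generators -/
def Y : G7 := ⟨0, 1, 0, 0, 0, 0, 0⟩
/-- generators -/
def Z : G7 := ⟨0, 0, 0, 1, 0, 0, 0⟩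

theorem tri : ⁅X, ⁅Y, Z⁆⁆ = ⟨0, 0, 0, 0, 0, 0, 1⟩ := by
  simp only [commutatorElement_def, X, Y, Z, mul_def, inv_def]
  ext <;> decide

theorem tri_pow (k : ℕ) : (⟨0, 0, 0, 0, 0, 0, 1⟩ : G7) ^ k = ⟨0, 0, 0, 0, 0, 0, (k : ZMod 3)⟩ := by
  induction k with
  | zero => simp [one_def]
  | succ k ih => rw [pow_succ, ih, mul_def]; simp

theorem split : Split3 (1 : MulAut G7) := fun x => by simpa using cube x

end G7

end Pool.Agent.SA27
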