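import Pool.Agent.SA27.Engel

/-!
Groups with an automorphism `φ` with `x * φ x * φ (φ x) = 1`: they are 2-Engel, and the triple
commutator does not change when `φ` is applied to one of its entries.
-/

set_option autoImplicit false

namespace Pool.Agent.SA27

open scoped commutatorElement

variable {H : Type*} [Group H]

/-- splitting of order 3 -/
def Split3 (φ : MulAut H) : Prop := ∀ x : H, x * φ x * φ (φ x) = 1

section split

variable {φ : MulAut H} (hs : Split3 φ)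

include hs

theorem phi_cube (x : H) : φ (φ (φ x)) = x := by
  have h1 := hs x
  have h2 := hs (φ x)
  rw [mul_assoc] at h1
  have h3 : φ x * φ (φ x) = x⁻¹ := eq_inv_of_mul_eq_one_right h1
  rw [h3] at h2
  exact (inv_mul_eq_one.1 h2).symm

theorem phi2_eq (x : H) : φ (φ x) = (x * φ x)⁻¹ := eq_inv_of_mul_eq_one_right (hs x)

theorem comm_phi (x : H) : Commute x (φ x) := by
  have h1 := hs x
  have h2 := hs x⁻¹
  have h3 : φ (φ x) * φ x * x = 1 := by
    have := congrArg (fun t => t⁻¹) h2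
    simpa [mul_assoc] using this
  have h4 : φ (φ x) = (φ x * x)⁻¹ := by
    rw [mul_assoc] at h3
    exact eq_inv_of_mul_eq_one_left h3
  have h5 := phi2_eq hs x
  rw [h4] at h5
  exact (inv_injective h5).symm

theorem comm2 (h k : H) : Commute (φ (φ k)) (h * k * h⁻¹) := by
  have n0 := hs h
  have n1 := hs (h * k)
  have n2 := hs (h * k⁻¹)
  simp only [map_mul, map_inv] at n1 n2
  have e : φ (φ h) = (h * φ h)⁻¹ := phi2_eq hs h
  rw [e] at n1 n2
  set u := h * k * h⁻¹ with hu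
  set v := h * φ h * φ k * (h * φ h)⁻¹ with hv
  have a1 : u * v * φ (φ k) = 1 := by
    rw [← n1, hu, hv]; group
  have a2 : u⁻¹ * v⁻¹ * (φ (φ k))⁻¹ = 1 := by
    rw [← n2, hu, hv]; group
  have a3 : φ (φ k) * v * u = 1 := by
    have := congrArg (fun t => t⁻¹) a2
    simpa [mul_assoc] using this
  have b1 : φ (φ k) = (u * v)⁻¹ := eq_inv_of_mul_eq_one_right a1
  have b2 : φ (φ k) = (v * u)⁻¹ := by
    rw [mul_assoc] at a3
    exact eq_inv_of_mul_eq_one_left a3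
  have b3 : u * v = v * u := inv_injective (b1.symm.trans b2)
  rw [b1]
  refine Commute.inv_left ?_
  refine Commute.mul_left (Commute.refl u) ?_
  exact b3.symm

theorem comm3 (h k : H) : Commute k (h * φ k * h⁻¹) := by
  have := comm2 hs h (φ k)
  rwa [phi_cube hs] at this

theorem comm4 (h k : H) : Commute k (h * φ (φ k) * h⁻¹) := by
  have h1 := comm2 hs h⁻¹ k
  have h2 : h * (φ (φ k) * (h⁻¹ * k * h⁻¹⁻¹)) * h⁻¹ =
      h * ((h⁻¹ * k * h⁻¹⁻¹) * φ (φ k)) * h⁻¹ := by rw [h1.eq]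
  have h3 : h * (φ (φ k) * (h⁻¹ * k * h⁻¹⁻¹)) * h⁻¹ = h * φ (φ k) * h⁻¹ * k := by group
  have h4 : h * ((h⁻¹ * k * h⁻¹⁻¹) * φ (φ k)) * h⁻¹ = k * (h * φ (φ k) * h⁻¹) := by group
  rw [h3, h4] at h2
  exact h2.symm

/-- a group with a splitting automorphism of order 3 is 2-Engel -/
theorem engel_of_split : Engel2 H := by
  intro h k
  have h1 := comm3 hs h k
  have h2 := comm4 hs h k
  have h3 : h * k * h⁻¹ = ((h * φ k * h⁻¹) * (h * φ (φ k) * h⁻¹))⁻¹ := by
    rw [phi2_eq hs k]; group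
  rw [h3]
  exact (h1.mul_right h2).inv_right

/-- the relation `⁅k, ⁅h, φ k⁆⁆ = 1` -/
theorem B_phi (h k : H) : ⁅k, ⁅h, φ k⁆⁆ = 1 := by
  rw [commutatorElement_eq_one_iff_commute, commutatorElement_def]
  exact (comm3 hs h k).mul_right (comm_phi hs k).inv_right

theorem B_move13 (k h l : H) : ⁅k, ⁅h, φ l⁆⁆ = ⁅φ k, ⁅h, l⁆⁆ := by
  have E := engel_of_split hs
  have h1 := B_phi hs h (k * l)
  rw [map_mul, B_mul3 E, B_mul1 E, B_mul1 E, B_phi hs h k, B_phi hs h l, one_mul, mul_one] at h1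
  -- h1 : ⁅l, ⁅h, φ k⁆⁆ * ⁅k, ⁅h, φ l⁆⁆ = 1
  have h2 : ⁅l, ⁅h, φ k⁆⁆ = ⁅φ k, ⁅h, l⁆⁆⁻¹ := by
    rw [B_cyc E (φ k) h l, B_swap23 E l (φ k) h, inv_inv]
  rw [h2] at h1
  exact (inv_mul_eq_one.1 h1).symm

theorem B_move12 (k h l : H) : ⁅k, ⁅φ h, l⁆⁆ = ⁅φ k, ⁅h, l⁆⁆ := by
  have E := engel_of_split hs
  rw [B_swap23 E k (φ h) l, B_move13 hs, B_swap23 E (φ k) l h, inv_inv]

theorem B_both (k g h : H) : ⁅k, ⁅φ g, φ h⁆⁆ = ⁅φ k, ⁅g, h⁆⁆ := by
  have E := engel_of_split hs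
  set u := ⁅g, h⁆ with hu
  have hfu : φ u = ⁅φ g, φ h⁆ := by rw [hu]; exact map_commutatorElement φ g h
  have h0 := comm_phi hs (u * k)
  rw [map_mul] at h0
  have c1 : ∀ w, Commute w ⁅k, φ u⁆ := fun w => by
    rw [hfu]; exact B_central E k _ _ w
  have c2 : ∀ w, Commute w ⁅φ k, u⁆ := fun w => B_central E (φ k) g h w
  have e1 : k * φ u = ⁅k, φ u⁆ * (φ u * k) := by rw [commutatorElement_def]; group
  have e2 : φ k * u = ⁅φ k, u⁆ * (u * φ k) := by rw [commutatorElement_def]; group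
  have e3 : u * φ u = φ u * u := (comm_phi hs u).eq
  have e4 : k * φ k = φ k * k := (comm_phi hs k).eq
  have l1 : u * k * (φ u * φ k) = ⁅k, φ u⁆ * (u * φ u * (φ k * k)) := by
    calc u * k * (φ u * φ k) = u * (k * φ u) * φ k := by group
      _ = u * ⁅k, φ u⁆ * (φ u * (k * φ k)) := by rw [e1]; group
      _ = ⁅k, φ u⁆ * (u * φ u * (φ k * k)) := by rw [(c1 u).eq, e4]; group
  have l2 : φ u * φ k * (u * k) = ⁅φ k, u⁆ * (u * φ u * (φ k * k)) := by
    calc φ u * φ k * (u * k) = φ u * (φ k * u) * k := by group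
      _ = φ u * ⁅φ k, u⁆ * (u * φ k * k) := by rw [e2]; group
      _ = ⁅φ k, u⁆ * (φ u * u * (φ k * k)) := by rw [(c2 (φ u)).eq]; group
      _ = ⁅φ k, u⁆ * (u * φ u * (φ k * k)) := by rw [e3]
  have l3 := h0.eq
  rw [l1, l2] at l3
  have := mul_right_cancel l3
  rwa [hfu] at this

/-- `φ` does nothing inside a triple commutator -/
theorem B_inv1 (k g h : H) : ⁅φ k, ⁅g, h⁆⁆ = ⁅k, ⁅g, h⁆⁆ := by
  have h1 : ∀ k g h : H, ⁅φ (φ k), ⁅g, h⁆⁆ = ⁅φ k, ⁅g, h⁆⁆ := fun k g h => by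
    rw [← B_both hs k g h, B_move13 hs k (φ g) h, B_move12 hs (φ k) g h]
  have h2 := h1 (φ (φ k)) g h
  rw [phi_cube hs] at h2
  rw [h2, phi_cube hs]

end split

/-- class at most three -/
theorem class3 (E : Engel2 H) : Subgroup.upperCentralSeries H 3 = ⊤ := by
  rw [eq_top_iff]
  intro x _
  rw [Subgroup.mem_upperCentralSeries_succ_iff]
  intro y
  rw [Subgroup.mem_upperCentralSeries_succ_iff]
  intro z
  rw [Subgroup.mem_upperCentralSeries_succ_iff]
  intro w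
  rw [Subgroup.upperCentralSeries_zero, Subgroup.mem_bot, commutatorElement_eq_one_iff_commute,
    ← commutatorElement_inv z ⁅x, y⁆]
  exact (B_central E z x y w).symm.inv_left

end Pool.Agent.SA27
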